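import Pool.Agent.Y80.KM.HStruct
import Pool.Agent.Y839.KM.Ext
import Pool.Agent.Y355.KM.Subq
import Pool.Agent.Y76.KM.GLHom

set_option autoImplicit false

open scoped BigOperators

/-! Job CORE of project KM (helper80): if `H_p(L)` has no trivial and no adjoint component, the
alternating sums `e0` and `egl` of its weight multiplicities vanish. -/

namespace Pool.Agent.Y270.KM

open Pool.Agent.Y80.KM Pool.Agent.Y355.KM

universe u

section lattice

variable {k V ι : Type*} [Field k] [AddCommGroup V] [Module k V]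

/-- independent spaces `W`, subspaces `F ≤ W`: the part of `⨆ F` in `W μ` is `F μ` -/
theorem iSup_inf_eq {W F : ι → Submodule k V} (hW : iSupIndep W) (hF : ∀ i, F i ≤ W i) (m : ι) :
    (⨆ i, F i) ⊓ W m = F m := by
  classical
  apply le_antisymm
  · have h1 : (⨆ i, F i) ≤ F m ⊔ ⨆ (i) (_ : i ≠ m), F i := by
      refine iSup_le fun i => ?_
      by_cases h : i = m
      · subst h; exact le_sup_left
      · exact le_trans (le_iSup₂_of_le i h le_rfl) le_sup_right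
    refine le_trans (inf_le_inf_right _ h1) ?_
    rw [sup_inf_assoc_of_le _ (hF m)]
    refine sup_le le_rfl ?_
    have h2 : (⨆ (i) (_ : i ≠ m), F i) ⊓ W m ≤ ⊥ := by
      have h3 := (hW m).le_bot
      refine le_trans ?_ h3
      rw [inf_comm]
      exact inf_le_inf_left _ (iSup₂_mono fun i _ => hF i)
    exact le_trans h2 bot_le
  · exact le_inf (le_iSup F m) (hF m)

/-- kernels of graded maps are graded -/
theorem ker_graded {E W : ι → Submodule k V} (hW : iSupIndep W) (T : V →ₗ[k] V)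
    (hT : ∀ i, ∀ x ∈ E i, T x ∈ W i) {z : V} (hz : z ∈ ⨆ i, E i) (h0 : T z = 0) :
    z ∈ ⨆ i, E i ⊓ LinearMap.ker T := by
  classical
  rw [Submodule.mem_iSup_iff_exists_finsupp] at hz
  obtain ⟨f, hf, rfl⟩ := hz
  rw [Finsupp.sum, map_sum] at h0
  rw [Finsupp.sum]
  refine Submodule.sum_mem _ fun i hi => ?_
  refine Submodule.mem_iSup_of_mem i ⟨hf i, ?_⟩
  show T (f i) = 0
  have h1 : T (f i) ∈ W i := hT i _ (hf i)
  have h2 : T (f i) ∈ ⨆ (j) (_ : j ≠ i), W j := by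
    rw [← Finset.add_sum_erase _ _ hi] at h0
    rw [eq_neg_of_add_eq_zero_left h0]
    refine neg_mem (Submodule.sum_mem _ fun j hj => ?_)
    exact Submodule.mem_iSup_of_mem j (Submodule.mem_iSup_of_mem (Finset.ne_of_mem_erase hj)
      (hT j _ (hf j)))
  have h3 := (hW i).le_bot ⟨h1, h2⟩
  rwa [Submodule.mem_bot] at h3

end lattice

section data

variable {k L : Type u} [Field k] [LieRing L] [LieAlgebra k L] {N : ℕ} {I : Type u}
  (H : HData k L N I)

/-- the action of `gl_N` on the exterior algebra -/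
noncomputable def rho : Matrix (Fin N) (Fin N) k →ₗ[k] Module.End k (ExteriorAlgebra k L) :=
  thetaL ∘ₗ H.act

theorem rho_apply (X : Matrix (Fin N) (Fin N) k) (w : ExteriorAlgebra k L) :
    rho H X w = theta (H.act X) w := rfl

theorem rho_bracket (X Y : Matrix (Fin N) (Fin N) k) :
    rho H (X * Y - Y * X) = rho H X * rho H Y - rho H Y * rho H X := by
  show theta (H.act (X * Y - Y * X)) = theta (H.act X) ∘ₗ theta (H.act Y) -
    theta (H.act Y) ∘ₗ theta (H.act X)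
  rw [H.hlie, theta_comm]

/-- the degree of a basis vector -/
def dg (i : I) : ℕ := (H.γ i).1

/-- the piece of degree `n` of `⋀^p L` -/
noncomputable def EV (p n : ℕ) : Submodule k (ExteriorAlgebra k L) := eg H.b (dg H) p n

theorem eg_le_EV (p n : ℕ) (μ : Fin N → ℤ) : eg H.b H.γ p (n, μ) ≤ EV H p n := by
  refine Submodule.span_le.2 ?_
  rintro _ ⟨l, hl, hs, rfl⟩
  refine Submodule.subset_span ⟨l, hl, ?_, rfl⟩
  have h := congrArg (AddMonoidHom.fst ℕ (Fin N → ℤ)) hs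
  rw [map_list_sum, List.map_map] at h
  exact h

theorem EV_eq (p n : ℕ) : EV H p n = ⨆ μ : Fin N → ℤ, eg H.b H.γ p (n, μ) := by
  apply le_antisymm
  · refine Submodule.span_le.2 ?_
    rintro _ ⟨l, hl, hs, rfl⟩
    refine Submodule.mem_iSup_of_mem (l.map H.γ).sum.2 (Submodule.subset_span ⟨l, hl, ?_, rfl⟩)
    have h : (l.map H.γ).sum.1 = n := by
      have h2 := map_list_sum (AddMonoidHom.fst ℕ (Fin N → ℤ)) (l.map H.γ)
      rw [List.map_map] at h2
      exact h2.trans hs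
    rw [← h]
  · exact iSup_le fun μ => eg_le_EV H p n μ

theorem hsp_dg (g : ℕ × (Fin N → ℤ)) : hsp H.b H.γ g ≤ hsp H.b (dg H) g.1 := by
  refine Submodule.span_mono (Set.image_mono ?_)
  rintro i (hi : H.γ i = g)
  show (H.γ i).1 = g.1
  rw [hi]

theorem hbr_dg (i j : I) : ⁅H.b i, H.b j⁆ ∈ hsp H.b (dg H) (dg H i + dg H j) := by
  have h := hsp_dg H (H.γ i + H.γ j) (H.hbr i j)
  have e : (H.γ i + H.γ j).1 = dg H i + dg H j := rfl
  rw [e] at h
  exact h

theorem act_dg (X : Matrix (Fin N) (Fin N) k) (s : I) :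
    H.act X (H.b s) ∈ hsp H.b (dg H) (dg H s + 0) := by
  rw [Matrix.matrix_eq_sum_single X, map_sum, LinearMap.sum_apply]
  refine Submodule.sum_mem _ fun i _ => ?_
  rw [map_sum, LinearMap.sum_apply]
  refine Submodule.sum_mem _ fun j _ => ?_
  have h : Matrix.single i j (X i j) = X i j • Matrix.single i j (1 : k) := by
    rw [Matrix.smul_single, smul_eq_mul, mul_one]
  rw [h, map_smul, LinearMap.smul_apply]
  have h2 := hsp_dg H (H.γ s + (0, epsd i j)) (H.hsh s i j)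
  have e : (H.γ s + (0, epsd i j)).1 = dg H s + 0 := rfl
  rw [e] at h2
  exact Submodule.smul_mem _ _ h2

theorem finite_sets (p n : ℕ) : {S : Finset I | S.card = p ∧ ∑ i ∈ S, dg H i = n}.Finite := by
  classical
  have h1 : {i | (H.γ i).1 ≤ n}.Finite := by
    have : {i | (H.γ i).1 ≤ n} = ⋃ m ∈ Finset.range (n + 1), {i | (H.γ i).1 = m} := by
      ext i
      simp
    rw [this]
    exact Set.Finite.biUnion (Finset.finite_toSet _) fun m _ => H.hfin m
  refine Set.Finite.subset (Finset.finite_toSet h1.toFinset.powerset) ?_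
  rintro S ⟨-, hS⟩
  simp only [Finset.coe_powerset, Set.mem_preimage, Set.mem_powerset_iff]
  intro i hi
  rw [Set.Finite.coe_toFinset]
  show (H.γ i).1 ≤ n
  rw [← hS]
  exact Finset.single_le_sum (f := dg H) (fun _ _ => Nat.zero_le _) hi

theorem EV_finite (p n : ℕ) : FiniteDimensional k (EV H p n) :=
  Pool.Agent.Y839.KM.eg_finite H.b (dg H) p n (finite_sets H p n)

theorem rho_EV (X : Matrix (Fin N) (Fin N) k) {p n : ℕ} {w : ExteriorAlgebra k L}
    (hw : w ∈ EV H p n) : rho H X w ∈ EV H p n := by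
  have := theta_mem_eg H.b (dg H) (H.act X) 0 (act_dg H X) hw
  rwa [add_zero] at this

theorem ced_EV {p n : ℕ} {w : ExteriorAlgebra k L} (hw : w ∈ EV H (p + 1) n) :
    ced k L w ∈ EV H p n :=
  ced_mem_eg H.b (dg H) (hbr_dg H) hw

theorem ced_rho (X : Matrix (Fin N) (Fin N) k) (w : ExteriorAlgebra k L) :
    ced k L (rho H X w) = rho H X (ced k L w) :=
  LinearMap.congr_fun (ced_theta k (H.act X) (H.hder X)) w

/-- evaluation of the weight at `j` -/
def chiH (k : Type*) [Field k] {N : ℕ} (j : Fin N) : ℕ × (Fin N → ℤ) →+ k :=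
  (Int.castAddHom k).comp ((Pi.evalAddMonoidHom (fun _ : Fin N => ℤ) j).comp
    (AddMonoidHom.snd ℕ (Fin N → ℤ)))

theorem eg_le_wsp (p n : ℕ) (μ : Fin N → ℤ) : eg H.b H.γ p (n, μ) ≤ wsp (rho H) μ := by
  intro w hw
  rw [mem_wsp]
  intro j
  exact theta_diag H.b H.γ (H.act (Matrix.single j j 1)) (chiH k j) (fun i => H.hwt i j) hw

/-- the cycles -/
noncomputable def ZZ (p n : ℕ) : Submodule k (ExteriorAlgebra k L) :=
  EV H p n ⊓ LinearMap.ker (ced k L)

/-- the boundaries -/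
noncomputable def BB (p n : ℕ) : Submodule k (ExteriorAlgebra k L) :=
  (EV H (p + 1) n).map (ced k L)

theorem BB_le_ZZ (p n : ℕ) : BB H p n ≤ ZZ H p n := by
  rintro _ ⟨w, hw, rfl⟩
  exact ⟨ced_EV H hw, ced_ced k w⟩

theorem rho_ZZ (p n : ℕ) (X : Matrix (Fin N) (Fin N) k) :
    ∀ z ∈ ZZ H p n, rho H X z ∈ ZZ H p n := by
  rintro z ⟨hz1, hz2⟩
  refine ⟨rho_EV H X hz1, ?_⟩
  have hz3 : ced k L z = 0 := hz2
  show ced k L (rho H X z) = 0
  rw [ced_rho, hz3, map_zero]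

theorem rho_BB (p n : ℕ) (X : Matrix (Fin N) (Fin N) k) :
    ∀ z ∈ BB H p n, rho H X z ∈ BB H p n := by
  rintro _ ⟨w, hw, rfl⟩
  exact ⟨rho H X w, rho_EV H X hw, ced_rho H X w⟩

theorem rho_one (z : ExteriorAlgebra k L) : rho H 1 z = 0 := by
  rw [rho_apply, H.hone, theta_zero, LinearMap.zero_apply]

theorem wsp_rho_indep [CharZero k] : iSupIndep fun μ : Fin N → ℤ => wsp (rho H) μ :=
  wsp_indep (rho H) (rho_bracket H)

theorem EV_inf_wsp [CharZero k] (p n : ℕ) (μ : Fin N → ℤ) :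
    EV H p n ⊓ wsp (rho H) μ = eg H.b H.γ p (n, μ) := by
  rw [EV_eq]
  exact iSup_inf_eq (F := fun μ : Fin N → ℤ => eg H.b H.γ p (n, μ)) (wsp_rho_indep H)
    (fun μ => eg_le_wsp H p n μ) μ

theorem ZZ_inf_wsp [CharZero k] (p n : ℕ) (μ : Fin N → ℤ) :
    ZZ H p n ⊓ wsp (rho H) μ = eg H.b H.γ p (n, μ) ⊓ LinearMap.ker (ced k L) := by
  rw [ZZ, inf_right_comm, EV_inf_wsp]

theorem BB_inf_wsp [CharZero k] (p n : ℕ) (μ : Fin N → ℤ) :
    BB H p n ⊓ wsp (rho H) μ = (eg H.b H.γ (p + 1) (n, μ)).map (ced k L) := by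
  rw [BB, EV_eq, Submodule.map_iSup]
  refine iSup_inf_eq (F := fun μ : Fin N → ℤ => (eg H.b H.γ (p + 1) (n, μ)).map (ced k L))
    (wsp_rho_indep H) ?_ μ
  rintro ν _ ⟨w, hw, rfl⟩
  exact eg_le_wsp H p n ν (ced_mem_eg H.b H.γ H.hbr hw)

theorem ZZ_le [CharZero k] (p n : ℕ) (hp : 1 ≤ p) :
    ZZ H p n ≤ ⨆ μ : Fin N → ℤ, ZZ H p n ⊓ wsp (rho H) μ := by
  obtain ⟨q, rfl⟩ : ∃ q, p = q + 1 := ⟨p - 1, by omega⟩
  rintro z ⟨hz1, hz2⟩
  rw [EV_eq] at hz1
  have h := ker_graded (wsp_rho_indep H) (ced k L)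
    (fun ν x hx => eg_le_wsp H q n ν (ced_mem_eg H.b H.γ H.hbr hx)) hz1 hz2
  have h2 : (⨆ ν : Fin N → ℤ, eg H.b H.γ (q + 1) (n, ν) ⊓ LinearMap.ker (ced k L)) ≤
      ⨆ ν : Fin N → ℤ, ZZ H (q + 1) n ⊓ wsp (rho H) ν :=
    iSup_mono fun ν => (ZZ_inf_wsp H (q + 1) n ν).ge
  exact h2 h

theorem EV_indep (p : ℕ) : iSupIndep fun n : ℕ => EV H p n := by
  have h := (Pool.Agent.Y839.KM.eg_internal H.b (dg H)).submodule_iSupIndep
  exact h.comp (f := fun n : ℕ => (p, n)) fun a b hab => (Prod.ext_iff.1 hab).2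

theorem power_eq (p : ℕ) : ⨆ n : ℕ, EV H p n = ⋀[k]^p L :=
  Pool.Agent.Y839.KM.eg_iSup H.b (dg H) p

theorem EV_le_power (p n : ℕ) : EV H p n ≤ ⋀[k]^p L := by
  rw [← power_eq H]
  exact le_iSup (fun n : ℕ => EV H p n) n

theorem ZZ_le_cyc (p n : ℕ) : ZZ H p n ≤ cyc k L p :=
  inf_le_inf_right _ (EV_le_power H p n)

theorem BB_le_bdy (p n : ℕ) : BB H p n ≤ bdy k L p :=
  Submodule.map_mono (EV_le_power H (p + 1) n)

/-- a boundary of degree `n` is a boundary from degree `n` -/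
theorem bdy_inf_EV (p n : ℕ) : bdy k L p ⊓ EV H p n = BB H p n := by
  rw [bdy, ← power_eq H, Submodule.map_iSup]
  refine iSup_inf_eq (F := fun n : ℕ => (EV H (p + 1) n).map (ced k L)) (EV_indep H p) ?_ n
  rintro ν _ ⟨w, hw, rfl⟩
  exact ced_EV H hw

/-- the class of a cycle of degree `n` vanishes exactly for boundaries from degree `n` -/
theorem class_eq_zero {p n : ℕ} {z : ExteriorAlgebra k L} (hz : z ∈ ZZ H p n) :
    (Submodule.Quotient.mk (⟨z, ZZ_le_cyc H p n hz⟩ : cyc k L p) : LieHomology k L p) = 0 ↔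
      z ∈ BB H p n := by
  rw [Submodule.Quotient.mk_eq_zero, ← bdy_inf_EV]
  exact ⟨fun h => ⟨h, hz.1⟩, fun h => h.1⟩

theorem hact_mk (p : ℕ) (X : Matrix (Fin N) (Fin N) k) {z : ExteriorAlgebra k L}
    (hz : z ∈ cyc k L p) (hz' : rho H X z ∈ cyc k L p) :
    hact (H.act X) (H.hder X) p (Submodule.Quotient.mk (⟨z, hz⟩ : cyc k L p)) =
      Submodule.Quotient.mk (⟨rho H X z, hz'⟩ : cyc k L p) := rfl

theorem hinv (p n : ℕ) (hNC : H.NoComp p) (z : ExteriorAlgebra k L) (hz : z ∈ ZZ H p n)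
    (h : ∀ X, rho H X z ∈ BB H p n) : z ∈ BB H p n := by
  rw [← class_eq_zero H hz]
  apply hNC.1
  intro X _
  rw [hact_mk H p X (ZZ_le_cyc H p n hz) (ZZ_le_cyc H p n (rho_ZZ H p n X z hz)),
    class_eq_zero H (rho_ZZ H p n X z hz)]
  exact h X

end data

section adj

variable {k L : Type u} [Field k] [CharZero k] [LieRing L] [LieAlgebra k L] {N : ℕ} {I : Type u}
  (H : HData k L N I)

/-- the map on homology classes -/
noncomputable def fmap (p n : ℕ) (φ : Matrix (Fin N) (Fin N) k →ₗ[k] ExteriorAlgebra k L)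
    (hφ : ∀ Y, φ Y ∈ ZZ H p n) :
    LieAlgebra.SpecialLinear.sl (Fin N) k →ₗ[k] LieHomology k L p where
  toFun Y := Submodule.Quotient.mk (⟨φ Y.1, ZZ_le_cyc H p n (hφ Y.1)⟩ : cyc k L p)
  map_add' Y Y' := by
    rw [← Submodule.Quotient.mk_add]
    congr 1
    ext
    exact map_add φ Y.1 Y'.1
  map_smul' c Y := by
    rw [RingHom.id_apply, ← Submodule.Quotient.mk_smul]
    congr 1
    ext
    exact map_smul φ c Y.1

theorem hadj [NeZero N] (hsl : ∀ (K : Submodule k (Matrix (Fin N) (Fin N) k)),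
      (∀ X, ∀ Y ∈ K, X * Y - Y * X ∈ K) →
      (∀ Y ∈ K, Y.trace = 0) → (∃ Y ∈ K, Y ≠ 0) → ∀ Z : Matrix (Fin N) (Fin N) k,
      Z.trace = 0 → Z ∈ K)
    (p n : ℕ) (hNC : H.NoComp p) (φ : Matrix (Fin N) (Fin N) k →ₗ[k] ExteriorAlgebra k L)
    (hφ : ∀ Y, φ Y ∈ ZZ H p n)
    (he : ∀ X Y, rho H X (φ Y) - φ (X * Y - Y * X) ∈ BB H p n) (Y : Matrix (Fin N) (Fin N) k) :
    φ Y ∈ BB H p n := by
  -- the identity matrix
  have h1 : φ 1 ∈ BB H p n := by
    refine hinv H p n hNC _ (hφ 1) fun X => ?_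
    have := he X 1
    rwa [mul_one, one_mul, sub_self, map_zero, sub_zero] at this
  -- the kernel
  let K : Submodule k (Matrix (Fin N) (Fin N) k) :=
    LinearMap.ker (Matrix.traceLinearMap (Fin N) k k) ⊓ (BB H p n).comap φ
  have hK : ∀ Z, Z ∈ K ↔ Z.trace = 0 ∧ φ Z ∈ BB H p n := fun Z => Iff.rfl
  have hne : ∃ Z ∈ K, Z ≠ 0 := by
    by_contra hcon
    push Not at hcon
    refine hNC.2 (fmap H p n φ hφ) ?_ ?_
    · rw [← LinearMap.ker_eq_bot, LinearMap.ker_eq_bot']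
      rintro ⟨Z, hZ⟩ hZ0
      have h2 : φ Z ∈ BB H p n := (class_eq_zero H (hφ Z)).1 hZ0
      have h3 : Z.trace = 0 := hZ
      have h4 := hcon Z ((hK Z).2 ⟨h3, h2⟩)
      exact Subtype.ext h4
    · intro X Z
      rw [fmap, LinearMap.coe_mk, AddHom.coe_mk,
        hact_mk H p X.1 (ZZ_le_cyc H p n (hφ Z.1))
          (ZZ_le_cyc H p n (rho_ZZ H p n X.1 _ (hφ Z.1)))]
      rw [Submodule.Quotient.eq]
      show φ (X.1 * Z.1 - Z.1 * X.1) - rho H X.1 (φ Z.1) ∈ bdy k L p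
      rw [← neg_sub]
      exact neg_mem (BB_le_bdy H p n (he X.1 Z.1))
  have hall := hsl K (by
    intro X Z hZ
    rw [hK] at hZ ⊢
    refine ⟨by rw [Matrix.trace_sub, Matrix.trace_mul_comm, sub_self], ?_⟩
    have h2 := sub_mem (rho_BB H p n X _ hZ.2) (he X Z)
    rwa [sub_sub_cancel] at h2) (fun Z hZ => ((hK Z).1 hZ).1) hne
  have hN : (N : k) ≠ 0 := Nat.cast_ne_zero.2 (NeZero.ne N)
  have hY : Y = ((Y.trace / N) • (1 : Matrix (Fin N) (Fin N) k)) +
      (Y - (Y.trace / N) • (1 : Matrix (Fin N) (Fin N) k)) := by abel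
  rw [hY, map_add, map_smul]
  refine add_mem (Submodule.smul_mem _ _ h1) ?_
  refine ((hK _).1 (hall _ ?_)).2
  rw [Matrix.trace_sub, Matrix.trace_smul, Matrix.trace_one, Fintype.card_fin, smul_eq_mul,
    div_mul_cancel₀ _ hN, sub_self]

end adj

theorem core {k L : Type u} [Field k] [CharZero k] [LieRing L] [LieAlgebra k L] {N : ℕ}
    [NeZero N] {I : Type u} (H : HData k L N I) (hR : Pool.Agent.Y80.KM.RepN k N)
    (hsl : ∀ (K : Submodule k (Matrix (Fin N) (Fin N) k)), (∀ X, ∀ Y ∈ K, X * Y - Y * X ∈ K) →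
      (∀ Y ∈ K, Y.trace = 0) → (∃ Y ∈ K, Y ≠ 0) → ∀ Z : Matrix (Fin N) (Fin N) k,
      Z.trace = 0 → Z ∈ K)
    (p n : ℕ) (hp : 1 ≤ p) (hNC : H.NoComp p) :
    e0 N (H.hm p n) = 0 ∧ egl N (H.hm p n) = 0 := by
  have hG : Pool.Agent.Y355.KM.GlHom k N := by
    intro M _ _ _ ρ hρ h1 htop hadj'
    exact Pool.Agent.Y76.KM.glhom hR ρ hρ h1 htop hadj'
  have := EV_finite H p n
  have : FiniteDimensional k ↥(ZZ H p n) :=
    Submodule.finiteDimensional_of_le (inf_le_left : ZZ H p n ≤ EV H p n)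
  have h := subq_of hG hR (rho H) (rho_bracket H) (ZZ H p n) (BB H p n) (BB_le_ZZ H p n)
    (rho_ZZ H p n) (rho_BB H p n) (fun z _ => rho_one H z) (ZZ_le H p n hp)
    (hinv H p n hNC) (hadj H hsl p n hNC)
  have he : (fun μ : Fin N → ℤ => (Module.finrank k ↥(ZZ H p n ⊓ wsp (rho H) μ) : ℤ) -
      Module.finrank k ↥(BB H p n ⊓ wsp (rho H) μ)) = H.hm p n := by
    funext μ
    rw [HData.hm, ZZ_inf_wsp, BB_inf_wsp]
  rwa [he] at h

end Pool.Agent.Y270.KM
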